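import Pool.Agent.H6.FN.TargetsG

/-!
# The order of a doubly transitive group with imprimitive stabilisers (row IMS of the board fcn)
-/

set_option autoImplicit false

open scoped Classical

open MulAction FI

namespace Pool.Agent.H17.FNI

theorem base_bound (BAS : T_BAS) (G α : Type) [Group G] [Finite α] [MulAction G α] [Nonempty α]
    (B : Finset α) (hB : ∀ g : G, (∀ b ∈ B, g • b = b) → g = 1) (c : ℝ) (hc : (B.card : ℝ) ≤ c) :
    (Nat.card G : ℝ) ≤ Real.exp (c * Real.log (Nat.card α)) := by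
  have h1 := BAS G α B hB
  have hn : 0 < Nat.card α := Nat.card_pos
  have hn' : (0 : ℝ) < Nat.card α := by exact_mod_cast hn
  have hL : 0 ≤ Real.log (Nat.card α) := Real.log_natCast_nonneg _
  have h2 : ((Nat.card α : ℝ)) ^ B.card = Real.exp (B.card * Real.log (Nat.card α)) := by
    rw [Real.exp_nat_mul, Real.exp_log hn']
  calc (Nat.card G : ℝ) ≤ (Nat.card α : ℝ) ^ B.card := by exact_mod_cast h1
    _ = Real.exp (B.card * Real.log (Nat.card α)) := h2
    _ ≤ Real.exp (c * Real.log (Nat.card α)) := by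
      apply Real.exp_le_exp.2
      exact mul_le_mul_of_nonneg_right hc hL

/-- the numerical inequalities -/
theorem numer (n : ℕ) (hn : 5 ≤ n) : ∃ M : ℕ, 1 ≤ M ∧ 4 * M ^ 2 + 1 ≤ n ∧
    (M : ℝ) * (16 * Real.log n + 1) + (2 * n / M * Real.log n + 1) ≤
      30 * Real.sqrt n * Real.log n + 4 := by
  have hn' : (5 : ℝ) ≤ n := by exact_mod_cast hn
  set t : ℝ := Real.sqrt (n - 1) / 2 with ht
  have hsq : Real.sqrt ((n : ℝ) - 1) ^ 2 = n - 1 := Real.sq_sqrt (by linarith)
  have hs0 : 0 ≤ Real.sqrt ((n : ℝ) - 1) := Real.sqrt_nonneg _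
  have hs2 : 2 ≤ Real.sqrt ((n : ℝ) - 1) := by
    apply Real.le_sqrt_of_sq_le
    linarith
  have ht1 : 1 ≤ t := by rw [ht]; linarith
  have hM1 : 1 ≤ ⌊t⌋₊ := Nat.le_floor (by simpa using ht1)
  have hMt : (⌊t⌋₊ : ℝ) ≤ t := Nat.floor_le (by linarith)
  have htM : t < ⌊t⌋₊ + 1 := Nat.lt_floor_add_one t
  have hM1' : (1 : ℝ) ≤ ⌊t⌋₊ := by exact_mod_cast hM1
  refine ⟨⌊t⌋₊, hM1, ?_, ?_⟩
  · have h1 : 4 * (⌊t⌋₊ : ℝ) ^ 2 + 1 ≤ n := by
      have h2 : (⌊t⌋₊ : ℝ) ^ 2 ≤ t ^ 2 := pow_le_pow_left₀ (by positivity) hMt 2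
      have h3 : t ^ 2 = (n - 1) / 4 := by
        rw [ht, div_pow, hsq]
        norm_num
      rw [h3] at h2
      linarith
    exact_mod_cast h1
  · set m : ℝ := (⌊t⌋₊ : ℝ) with hm
    set s : ℝ := Real.sqrt n with hsd
    have hss : s ^ 2 = n := Real.sq_sqrt (by linarith)
    have hs : 0 ≤ s := Real.sqrt_nonneg _
    have hL : 1 ≤ Real.log n := by
      rw [Real.le_log_iff_exp_le (by linarith)]
      have := Real.exp_one_lt_d9
      linarith
    have hL0 : 0 ≤ Real.log n := by linarith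
    -- m ≤ s / 2
    have h1 : m ≤ s / 2 := by
      have h2 : Real.sqrt ((n : ℝ) - 1) ≤ s := Real.sqrt_le_sqrt (by linarith)
      linarith
    -- 2 n / m ≤ 9 s
    have h2 : 2 * n / m ≤ 9 * s := by
      rw [div_le_iff₀ (by linarith)]
      -- m ≥ sqrt(n-1)/4
      have h3 : Real.sqrt ((n : ℝ) - 1) / 4 ≤ m := by linarith
      have h4 : 8 * s / 9 ≤ Real.sqrt ((n : ℝ) - 1) := by
        apply Real.le_sqrt_of_sq_le
        nlinarith
      have h5 : 2 * s / 9 ≤ m := by linarith
      nlinarith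
    have hs1 : 1 ≤ s := by
      rw [hsd]
      apply Real.le_sqrt_of_sq_le
      linarith
    have h3 : m * (16 * Real.log n + 1) ≤ s / 2 * (16 * Real.log n + 1) :=
      mul_le_mul_of_nonneg_right h1 (by linarith)
    have h4 : 2 * n / m * Real.log n ≤ 9 * s * Real.log n := mul_le_mul_of_nonneg_right h2 hL0
    have h5 : s ≤ s * Real.log n := by nlinarith
    nlinarith

theorem pf_IMS (IM1 : T_IM1) (IM2 : T_IM2) (IM3 : T_IM3) (HIT : T_HIT) (BAS : T_BAS) :
    T_IMS := by
  intro G α _ _ _ _ h2 x hx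
  have : Nonempty α := ⟨x⟩
  have hL : 0 ≤ Real.log (Nat.card α) := Real.log_natCast_nonneg _
  have hfaith : ∀ g : G, (∀ y : α, g • y = y) → g = 1 := by
    intro g hg
    refine FaithfulSMul.eq_of_smul_eq_smul (α := α) fun y => ?_
    rw [hg, one_smul]
  rcases Nat.lt_or_ge (Nat.card α) 5 with hn | hn
  · have h1 := base_bound BAS G α (Set.toFinite (Set.univ : Set α)).toFinset
      (fun g hg => hfaith g fun y => hg y (by simp)) 4 (by
        rw [← Set.ncard_eq_toFinset_card _ _, Set.ncard_univ]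
        have : Nat.card α ≤ 4 := by omega
        exact_mod_cast this)
    refine h1.trans (Real.exp_le_exp.2 ?_)
    have h3 : 0 ≤ 30 * Real.sqrt (Nat.card α) * Real.log (Nat.card α) ^ 2 := by positivity
    linarith
  · obtain ⟨R, b, hR⟩ := IM1 G α h2 x hx
    have hc := IM2 G α h2 R b hR
    obtain ⟨M, hM1, hM, hnum⟩ := numer (Nat.card α) hn
    obtain ⟨X, hX, hXZ⟩ := IM3 G α R b hR hc M hM
    obtain ⟨W, hW, hWc⟩ := HIT α
      (fun y z => (Set.toFinite {w | ∃ x ∈ X, x ≠ y ∧ x ≠ z ∧ ¬ R x y z ∧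
        (R x y w ∨ R x z w)}).toFinset) (fun y z => y ≠ z) M (by exact_mod_cast hM1)
      (fun y z hyz => by
        rw [← Set.ncard_eq_toFinset_card _ _]
        exact_mod_cast hXZ y z hyz)
    have h1 := base_bound BAS G α (X ∪ W) (by
      intro g hg
      refine hfaith g fun y => ?_
      by_contra hy
      obtain ⟨w, hwW, hw⟩ := hW y (g • y) (fun h => hy h.symm)
      rw [Set.Finite.mem_toFinset] at hw
      obtain ⟨x', hx', _, _, hnR, hw⟩ := hw
      have hgx : g • x' = x' := hg x' (Finset.mem_union_left _ hx')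
      have hgw : g • w = w := hg w (Finset.mem_union_right _ hwW)
      have hboth : R x' y w ∧ R x' (g • y) w := by
        rcases hw with hw | hw
        · have h := hR.inv g _ _ _ hw
          rw [hgx, hgw] at h
          exact ⟨hw, h⟩
        · have h := hR.inv g⁻¹ _ _ _ hw
          have hgx' : g⁻¹ • x' = x' := by rw [inv_smul_eq_iff, hgx]
          have hgw' : g⁻¹ • w = w := by rw [inv_smul_eq_iff, hgw]
          rw [hgx', hgw', inv_smul_smul] at h
          exact ⟨h, hw⟩
      exact hnR (hR.trans _ _ _ _ hboth.1 (hR.symm _ _ _ hboth.2)))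
      (30 * Real.sqrt (Nat.card α) * Real.log (Nat.card α) + 4) (by
        have h3 : ((X ∪ W).card : ℝ) ≤ X.card + W.card := by
          exact_mod_cast Finset.card_union_le X W
        linarith)
    refine h1.trans (le_of_eq ?_)
    congr 1
    ring

end Pool.Agent.H17.FNI
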